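import Pool.Agent.N89.HL.Stm

/-!
# Project HL, piece ALT: the types of all squares imply the alternating group (helper195)
-/

set_option autoImplicit false

namespace Pool.Agent.N195.HL.ALT

open Equiv Equiv.Perm MulAction
open scoped Pointwise

section grp

variable {α : Type*} [Fintype α] [DecidableEq α]

/-- cycles of odd length -/
theorem odd_cycle (H : Subgroup (Perm α)) (h : ∀ g : Perm α, ∃ c : Perm α, c⁻¹ * g ^ 2 * c ∈ H)
    (l : ℕ) (hl : Odd l) (hl2 : 2 ≤ l) (hle : l ≤ Fintype.card α) :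
    ∃ ρ ∈ H, ρ.cycleType = {l} := by
  obtain ⟨σ, hσ⟩ := (Equiv.Perm.exists_with_cycleType_iff α (m := {l})).2
    (by simpa using ⟨hle, hl2⟩)
  have hord : orderOf σ = l := by rw [← lcm_cycleType, hσ]; simp
  obtain ⟨k, hk⟩ := hl
  have hsq : (σ ^ (k + 1)) ^ 2 = σ := by
    rw [← pow_mul]
    have h1 : (k + 1) * 2 = orderOf σ + 1 := by omega
    rw [h1, pow_succ, pow_orderOf_eq_one, one_mul]
  obtain ⟨c, hc⟩ := h (σ ^ (k + 1))
  rw [hsq] at hc
  refine ⟨_, hc, ?_⟩
  have h2 := cycleType_conj (σ := σ) (τ := c⁻¹)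
  rw [inv_inv] at h2
  rw [h2, hσ]

/-- an element without fixed points -/
theorem no_fix (H : Subgroup (Perm α)) (h : ∀ g : Perm α, ∃ c : Perm α, c⁻¹ * g ^ 2 * c ∈ H)
    (he : 3 ≤ Fintype.card α) : ∃ ρ ∈ H, ∀ x, ρ x ≠ x := by
  obtain ⟨σ, hσ⟩ := (Equiv.Perm.exists_with_cycleType_iff α (m := {Fintype.card α})).2
    (by simp; omega)
  have hcyc : σ.IsCycle := card_cycleType_eq_one.1 (by rw [hσ]; simp)
  have hsupp : σ.support = Finset.univ := by
    rw [← Finset.card_eq_iff_eq_univ, ← sum_cycleType, hσ]; simp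
  obtain ⟨c, hc⟩ := h σ
  refine ⟨_, hc, fun x hx => ?_⟩
  have h1 : (σ ^ 2) (c x) = c x := by
    have h0 := congrArg c hx
    simpa [Perm.mul_apply] using h0
  have h2 : σ ^ 2 = 1 := (hcyc.pow_eq_one_iff).2 ⟨c x, by
    have h5 : c x ∈ σ.support := by rw [hsupp]; simp
    exact mem_support.1 h5, h1⟩
  have h3 : orderOf σ = Fintype.card α := by rw [← lcm_cycleType, hσ]; simp
  have h4 := orderOf_dvd_of_pow_eq_one h2
  rw [h3] at h4
  have h5 := Nat.le_of_dvd two_pos h4
  omega

theorem trans (H : Subgroup (Perm α)) (h : ∀ g : Perm α, ∃ c : Perm α, c⁻¹ * g ^ 2 * c ∈ H)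
    (he : 3 ≤ Fintype.card α) : IsPretransitive H α := by
  obtain ⟨g, hg, hgf⟩ := no_fix H h he
  rcases Nat.even_or_odd (Fintype.card α) with hev | hod
  · have hod' : Odd (Fintype.card α - 1) := by
      obtain ⟨k, hk⟩ := hev
      exact ⟨k - 1, by omega⟩
    obtain ⟨ρ, hρ, hct⟩ := odd_cycle H h _ hod' (by omega) (by omega)
    have hcyc : ρ.IsCycle := card_cycleType_eq_one.1 (by rw [hct]; simp)
    have hsupp : ρ.support.card = Fintype.card α - 1 := by
      rw [← sum_cycleType, hct]; simp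
    have hcompl : (ρ.supportᶜ).card = 1 := by rw [Finset.card_compl, hsupp]; omega
    obtain ⟨z, hz⟩ := Finset.card_eq_one.1 hcompl
    have hmem : ∀ x, x ≠ z → ρ x ≠ x := by
      intro x hx
      rw [← mem_support]
      by_contra h0
      have h1 : x ∈ ρ.supportᶜ := Finset.mem_compl.2 h0
      rw [hz, Finset.mem_singleton] at h1
      exact hx h1
    rw [isPretransitive_iff_base (g z)]
    intro y
    by_cases hy : y = z
    · refine ⟨⟨g⁻¹, H.inv_mem hg⟩, ?_⟩
      rw [hy]
      show g⁻¹ (g z) = z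
      simp
    · obtain ⟨i, hi⟩ := hcyc.exists_zpow_eq (hmem (g z) (hgf z)) (hmem y hy)
      exact ⟨⟨ρ ^ i, H.zpow_mem hρ i⟩, hi⟩
  · obtain ⟨ρ, hρ, hct⟩ := odd_cycle H h _ hod (by omega) le_rfl
    have hcyc : ρ.IsCycle := card_cycleType_eq_one.1 (by rw [hct]; simp)
    have hsupp : ρ.support = Finset.univ := by
      rw [← Finset.card_eq_iff_eq_univ, ← sum_cycleType, hct]; simp
    have hmem : ∀ x, ρ x ≠ x := by
      intro x
      rw [← mem_support, hsupp]; simp
    constructor
    intro x y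
    obtain ⟨i, hi⟩ := hcyc.exists_zpow_eq (hmem x) (hmem y)
    exact ⟨⟨ρ ^ i, H.zpow_mem hρ i⟩, hi⟩

theorem prim (H : Subgroup (Perm α)) [IsPretransitive H α] (l : ℕ) (ρ : Perm α) (hρ : ρ ∈ H)
    (hct : ρ.cycleType = {l}) (hl : Odd l) (hl3 : 3 ≤ l) (hle : l < Fintype.card α)
    (hle2 : Fintype.card α ≤ l + 2) : IsPreprimitive H α := by
  have hcyc : ρ.IsCycle := card_cycleType_eq_one.1 (by rw [hct]; simp)
  have hsupp : ρ.support.card = l := by rw [← sum_cycleType, hct]; simp
  have hcompl : (ρ.supportᶜ).card = Fintype.card α - l := by rw [Finset.card_compl, hsupp]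
  have hne : (ρ.supportᶜ).Nonempty := by
    rw [← Finset.card_pos, hcompl]; omega
  obtain ⟨z, hz⟩ := hne
  have hzf : ρ z = z := by
    rw [Finset.mem_compl, mem_support, not_not] at hz
    exact hz
  refine IsPreprimitive.of_isTrivialBlock_base z ?_
  intro B hzB hB
  by_cases hint : ∃ w ∈ B, ρ w ≠ w
  · right
    obtain ⟨w, hwB, hw⟩ := hint
    have hsub : ∀ x, ρ x ≠ x → x ∈ B := by
      intro x hx
      obtain ⟨i, hi⟩ := hcyc.exists_zpow_eq hw hx
      have h1 : (⟨ρ ^ i, H.zpow_mem hρ i⟩ : H) • B = B := by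
        apply hB.smul_eq_of_mem hzB
        show (ρ ^ i) z ∈ B
        rw [zpow_apply_eq_self_of_apply_eq_self hzf]
        exact hzB
      rw [← h1]
      exact ⟨w, hwB, hi⟩
    apply hB.eq_univ_of_card_lt
    have h2 : (insert z ρ.support : Finset α).card = l + 1 := by
      rw [Finset.card_insert_of_notMem (Finset.mem_compl.1 hz), hsupp]
    have h3 : ((insert z ρ.support : Finset α) : Set α) ⊆ B := by
      intro x hx
      rw [Finset.mem_coe, Finset.mem_insert, mem_support] at hx
      rcases hx with rfl | hx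
      · exact hzB
      · exact hsub x hx
    have h4 := Set.ncard_le_ncard h3 (Set.toFinite B)
    rw [Set.ncard_coe_finset, h2] at h4
    rw [Nat.card_eq_fintype_card]
    omega
  · left
    push Not at hint
    have h1 : B ⊆ ((ρ.supportᶜ : Finset α) : Set α) := by
      intro x hx
      rw [Finset.mem_coe, Finset.mem_compl, mem_support, not_not]
      exact hint x hx
    have h2 := Set.ncard_le_ncard h1 (Set.toFinite _)
    rw [Set.ncard_coe_finset, hcompl] at h2
    have h3 := hB.ncard_dvd_card ⟨z, hzB⟩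
    rw [Nat.card_eq_fintype_card] at h3
    have h4 : B.ncard ≤ 1 := by
      by_contra h5
      have h6 : B.ncard = 2 := by omega
      rw [h6] at h3
      obtain ⟨k, hk⟩ := hl
      omega
    rwa [← Set.ncard_le_one_iff_subsingleton]

/-- a subgroup of the symmetric group which meets the conjugacy classes of all squares contains the
alternating group -/
theorem alt_le (H : Subgroup (Perm α)) (h : ∀ g : Perm α, ∃ c : Perm α, c⁻¹ * g ^ 2 * c ∈ H)
    (he : 3 ≤ Fintype.card α) : alternatingGroup α ≤ H := by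
  have := trans H h he
  have hp : IsPreprimitive H α := by
    rcases Nat.even_or_odd (Fintype.card α) with hev | hod
    · have hod' : Odd (Fintype.card α - 1) := by
        obtain ⟨k, hk⟩ := hev
        exact ⟨k - 1, by omega⟩
      have h4 : 4 ≤ Fintype.card α := by
        obtain ⟨k, hk⟩ := hev
        omega
      obtain ⟨ρ, hρ, hct⟩ := odd_cycle H h _ hod' (by omega) (by omega)
      exact prim H _ ρ hρ hct hod' (by omega) (by omega) (by omega)
    · by_cases h3 : Fintype.card α = 3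
      · apply IsPreprimitive.of_prime_card
        rw [Nat.card_eq_fintype_card, h3]
        exact Nat.prime_three
      · have hod' : Odd (Fintype.card α - 2) := by
          obtain ⟨k, hk⟩ := hod
          exact ⟨k - 1, by omega⟩
        have h5 : 5 ≤ Fintype.card α := by
          obtain ⟨k, hk⟩ := hod
          omega
        obtain ⟨ρ, hρ, hct⟩ := odd_cycle H h _ hod' (by omega) (by omega)
        exact prim H _ ρ hρ hct hod' (by omega) (by omega) (by omega)
  obtain ⟨ρ, hρ, hct⟩ := odd_cycle H h 3 ⟨1, rfl⟩ (by omega) he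
  exact alternatingGroup_le_of_isPreprimitive_of_isThreeCycle_mem hp hct hρ

end grp

open Polynomial Pool.Agent.N89.HX Pool.Agent.N89.HL

/-- ALT -/
theorem main : S_ALT := by
  classical
  intro K _ e f he hyp
  set M := AlgebraicClosure K with hM
  set p : K[X] := pol f with hp
  obtain ⟨x0, τ0, hx0, -⟩ := hyp 1
  obtain ⟨hlast, hinj0, hfac0⟩ := hx0
  have hlast' : algebraMap K M (f (Fin.last e)) ≠ 0 := by
    rw [Ne, map_eq_zero_iff _ (algebraMap K M).injective]; exact hlast
  have hdeg : p.natDegree = e := by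
    have h1 : (p.map (algebraMap K M)).natDegree = p.natDegree := natDegree_map _
    rw [← h1, hfac0, natDegree_C_mul hlast', natDegree_prod_of_monic _ _ (fun i _ => monic_X_sub_C _)]
    simp
  have hsep : p.Separable := by
    rw [← separable_map (algebraMap K M), hfac0]
    have hu : IsUnit (C (algebraMap K M (f (Fin.last e))) : M[X]) :=
      isUnit_C.2 (isUnit_iff_ne_zero.2 hlast')
    obtain ⟨v, hv⟩ := hu
    rw [← hv, mul_comm]
    have h1 : (∏ i, (X - C (x0 i)) : M[X]).Separable :=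
      separable_prod_X_sub_C_iff.2 hinj0
    exact h1.mul_unit v.isUnit
  have hp0 : p ≠ 0 := hsep.ne_zero
  -- the roots
  have hroot : ∀ x : Fin e → M, Roots (algebraMap K M) f x →
      ∀ y : M, y ∈ p.rootSet M ↔ ∃ i, x i = y := by
    intro x hx y
    rw [mem_rootSet, aeval_def, ← eval_map, hx.2.2, eval_mul, eval_C, eval_prod, mul_eq_zero,
      Finset.prod_eq_zero_iff]
    constructor
    · rintro ⟨_, h | ⟨i, _, hi⟩⟩
      · exact absurd h hlast'
      · rw [eval_sub, eval_X, eval_C, sub_eq_zero] at hi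
        exact ⟨i, hi.symm⟩
    · rintro ⟨i, rfl⟩
      exact ⟨hp0, Or.inr ⟨i, Finset.mem_univ i, by simp⟩⟩
  have hex : ∀ x : Fin e → M, Roots (algebraMap K M) f x →
      ∃ ex : Fin e ≃ p.rootSet M, ∀ i, (ex i : M) = x i := by
    intro x hx
    refine ⟨Equiv.ofBijective (fun i => ⟨x i, (hroot x hx _).2 ⟨i, rfl⟩⟩) ⟨?_, ?_⟩, fun i => rfl⟩
    · intro i j hij
      exact hx.2.1 (congrArg Subtype.val hij)
    · rintro ⟨y, hy⟩
      obtain ⟨i, hi⟩ := (hroot x hx y).1 hy
      exact ⟨i, Subtype.ext hi⟩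
  -- the image of the Galois group
  let H : Subgroup (Equiv.Perm (p.rootSet M)) :=
    { carrier := {π | ∃ τ : M ≃ₐ[K] M, ∀ x : p.rootSet M, τ (x : M) = π x}
      mul_mem' := by
        rintro a b ⟨τ, hτ⟩ ⟨τ', hτ'⟩
        refine ⟨τ * τ', fun x => ?_⟩
        rw [AlgEquiv.mul_apply, hτ', hτ, Equiv.Perm.mul_apply]
      one_mem' := ⟨1, fun x => rfl⟩
      inv_mem' := by
        rintro a ⟨τ, hτ⟩
        refine ⟨τ⁻¹, fun x => ?_⟩
        have h1 := hτ (a⁻¹ x)
        have h2 : a (a⁻¹ x) = x := by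
          rw [← Equiv.Perm.mul_apply, mul_inv_cancel, Equiv.Perm.one_apply]
        rw [h2] at h1
        rw [← h1, ← AlgEquiv.mul_apply, inv_mul_cancel, AlgEquiv.one_apply] }
  obtain ⟨e0, he0⟩ := hex x0 ⟨hlast, hinj0, hfac0⟩
  have hcard : Fintype.card (p.rootSet M) = e := by
    rw [← Fintype.card_congr e0, Fintype.card_fin]
  have hH : alternatingGroup (p.rootSet M) ≤ H := by
    apply alt_le H _ (by rw [hcard]; exact he)
    intro π
    obtain ⟨x, τ, hx, hτ⟩ := hyp ((e0.trans π).trans e0.symm)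
    obtain ⟨ex, hexx⟩ := hex x hx
    refine ⟨ex.symm.trans e0, τ, fun y => ?_⟩
    obtain ⟨i, rfl⟩ := ex.surjective y
    rw [hexx, hτ, ← hexx]
    congr 1
    simp [Equiv.Perm.mul_apply, pow_two]
  refine ⟨hdeg, hsep, fun π hπ => ?_⟩
  have h1 : π ∈ H := by
    apply hH
    rw [Equiv.Perm.mem_alternatingGroup]
    convert hπ
  exact h1

end Pool.Agent.N195.HL.ALT
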